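import Pool.Agent.Lib.MP_4960b8_pr.UN.Uniq
import Pool.Agent.Lib.MP_4960b8_pr.RN.Kern

/-! Cluster points of laws whose hitting probabilities converge. -/

namespace Pool.Agent.Lib.MP_4960b8_pr.UN

open RN TopologicalSpace MeasureTheory Set Filter Topology

lemma ord_mem {hi : ℝ} : ∀ {l : List (ℝ × ℝ)} {lo : ℝ}, Ord lo l hi →
    lo < hi ∧ ∀ I ∈ l, lo < I.1 ∧ I.1 < I.2 ∧ I.2 < hi
  | [], _, h => ⟨h, fun _ hJ => nomatch hJ⟩
  | I :: l, lo, h => by
    obtain ⟨h1, h2⟩ := ord_mem h.2.2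
    refine ⟨h.1.trans (h.2.1.trans h1), fun J hJ => ?_⟩
    rcases List.mem_cons.1 hJ with rfl | hJ
    exacts [⟨h.1, h.2.1, h1⟩, ⟨(h.1.trans h.2.1).trans (h2 J hJ).1, (h2 J hJ).2⟩]

lemma hit_small {lam x ε : ℝ} (l1 : lam ≤ 1) (x0 : 0 < x) (x1 : x < 1) (hε : 0 < ε) :
    ∃ a b, 0 < a ∧ a < x ∧ x < b ∧ b < 1 ∧ hit lam [(a, b)] 0 ≤ ε := by
  have r0 : 0 < 1 - (1 + x) / 2 := by linarith
  have M0 : 0 < (1 - (1 + x) / 2) ^ (-1 / 4 : ℝ) := Real.rpow_pos_of_pos r0 _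
  obtain ⟨δ, δ0, hδ⟩ := Metric.continuousWithinAt_iff.1
    (Phi_cont 1 (right_mem_Icc.2 zero_le_one)) _ (div_pos hε M0)
  obtain ⟨η, η0, η1, η2⟩ : ∃ η : ℝ, 0 < η ∧ η < 1 ∧ η < δ :=
    ⟨min δ 1 / 2, by positivity, by linarith [min_le_right δ 1], by linarith [min_le_left δ 1]⟩
  obtain ⟨b, b1, b2, b3⟩ : ∃ b, x < b ∧ b ≤ (1 + x) / 2 ∧ b ≤ x * (1 + η) :=
    ⟨min _ _, lt_min (by linarith) (by nlinarith), min_le_left _ _, min_le_right _ _⟩
  have b0 : 0 < b := x0.trans b1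
  have a0 : 0 < (1 - η) * b := mul_pos (by linarith) b0
  have ab : (1 - η) * b ≤ b := by nlinarith
  refine ⟨(1 - η) * b, b, a0, ?_, b1, by linarith, ?_⟩
  · nlinarith [mul_le_mul_of_nonneg_left b3 (show 0 ≤ 1 - η by linarith), mul_pos x0 (mul_pos η0 η0)]
  have k := hδ (x := 1 - η) ⟨by linarith, by linarith⟩ (by
    rw [Real.dist_eq, abs_lt]
    constructor <;> linarith)
  rw [Phi_one, Real.dist_eq, sub_zero, lt_div_iff₀ M0] at k
  rw [hit_cons]
  refine (Real.le_norm_self _).trans ((intervalIntegral.norm_integral_le_of_norm_le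
    (f := fun d => RN.ker 0 ((1 - η) * b) d * hit lam [] d) (g := fun d => ker 0 ((1 - η) * b) d * (1 - (1 + x) / 2) ^ (-1 / 4 : ℝ)) ab
    (Eventually.of_forall fun d hd => ?_) ((ker_int a0 ab).mul_const _)).trans ?_)
  · have d0 : 0 < d := a0.trans hd.1
    have e : 1 - (1 + x) / 2 ≤ 1 - lam * d := by nlinarith [hd.2]
    have k0 := ker_nonneg a0 hd.1.le
    rw [Real.norm_eq_abs, hit, abs_of_nonneg (mul_nonneg k0 (Real.rpow_nonneg (r0.le.trans e) _))]
    exact mul_le_mul_of_nonneg_left (Real.rpow_le_rpow_of_nonpos r0 e (by norm_num)) k0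
  · rw [intervalIntegral.integral_mul_const, ker_val a0 ab, sub_zero, sub_zero,
      mul_div_cancel_right₀ _ b0.ne']
    exact (mul_le_mul_of_nonneg_right (le_abs_self _) M0.le).trans k.le

/-- compact sets meeting each of the open intervals of `l` -/
def HitO (l : List (ℝ × ℝ)) : Set (NonemptyCompacts unitInterval) :=
  {K | ∀ I ∈ l, ∃ x ∈ K, I.1 < (x : ℝ) ∧ (x : ℝ) < I.2}

lemma hitO_open (l : List (ℝ × ℝ)) : IsOpen (HitO l) := by
  have : HitO l = ⋂ I ∈ {I | I ∈ l}, {K : NonemptyCompacts unitInterval |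
      ((K : Set unitInterval) ∩ {x | I.1 < (x : ℝ) ∧ (x : ℝ) < I.2}).Nonempty} := by
    ext K
    simp only [HitO, mem_ofPred_eq, mem_iInter]
    rfl
  rw [this]
  exact (List.finite_toSet l).isOpen_biInter fun I _ =>
    NonemptyCompacts.isOpen_inter_nonempty_of_isOpen (isOpen_Ioo.preimage continuous_subtype_val)

lemma hitO_sub (l : List (ℝ × ℝ)) : HitO l ⊆ {K | ∀ I ∈ l, K ∈ Hit I} := fun _ hK I hI =>
  let ⟨x, h1, h2, h3⟩ := hK I hI
  ⟨x, h1, h2.le, h3.le⟩

lemma ends_closed : IsClosed {K : NonemptyCompacts unitInterval | 0 ∈ K ∧ 1 ∈ K} := by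
  have h : ∀ y : unitInterval, IsClosed {K : NonemptyCompacts unitInterval | y ∈ K} := fun y => by
    simpa using NonemptyCompacts.isClosed_inter_nonempty_of_isClosed
      (isClosed_singleton (x := y))
  exact (h 0).inter (h 1)

variable [MeasurableSpace (NonemptyCompacts unitInterval)]

/-- if no point inside is an atom, closed and open intervals are met almost surely together -/
lemma ae_hitO {ν : Measure (NonemptyCompacts unitInterval)} {lam : ℝ} (l1 : lam ≤ 1)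
    (h : ∀ a b, 0 < a → a < b → b < 1 → ν (HitO [(a, b)]) ≤ ENNReal.ofReal (hit lam [(a, b)] 0))
    {l : List (ℝ × ℝ)} (hl : Ord 0 l 1) : ν ({K | ∀ I ∈ l, K ∈ Hit I} \ HitO l) = 0 := by
  have z : ∀ x : ℝ, 0 < x → x < 1 → ν {K | ∃ y ∈ K, (y : ℝ) = x} = 0 := fun x x0 x1 => by
    refine le_antisymm (ENNReal.le_of_forall_pos_le_add fun ε hε _ => ?_) zero_le
    obtain ⟨a, b, a0, a1, b1, b2, k⟩ := hit_small l1 x0 x1 (NNReal.coe_pos.2 hε)
    refine (measure_mono ?_).trans ((h a b a0 (a1.trans b1) b2).trans ?_)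
    · rintro K ⟨y, yK, rfl⟩ I hI
      rw [List.mem_singleton.1 hI]
      exact ⟨y, yK, a1, b1⟩
    · simpa using ENNReal.ofReal_le_ofReal k
  refine measure_mono_null (t := ⋃ I ∈ {I | I ∈ l},
    ({K | ∃ y ∈ K, (y : ℝ) = I.1} ∪ {K | ∃ y ∈ K, (y : ℝ) = I.2})) ?_ ?_
  · rintro K ⟨k1, k2⟩
    by_contra k3
    simp only [mem_iUnion, mem_union, mem_ofPred_eq, not_exists, not_or, not_and] at k3
    refine k2 fun I hI => ?_
    obtain ⟨y, yK, y1, y2⟩ := k1 I hI
    exact ⟨y, yK, lt_of_le_of_ne y1 fun e => (k3 I hI).1 y yK e.symm,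
      lt_of_le_of_ne y2 ((k3 I hI).2 y yK)⟩
  · refine (measure_biUnion_null_iff (List.finite_toSet l).countable).2 fun I hI => ?_
    obtain ⟨i1, i2, i3⟩ := (ord_mem hl).2 I hI
    exact measure_union_null (z _ i1 (i2.trans i3)) (z _ (i1.trans i2) i3)

variable [BorelSpace (NonemptyCompacts unitInterval)]

lemma cluster {μ : ℕ → ProbabilityMeasure (NonemptyCompacts unitInterval)} {lam : ℝ}
    (l1 : lam ≤ 1)
    (h1 : ∀ l, Ord 0 l 1 → Tendsto (fun n => (μ n : Measure (NonemptyCompacts unitInterval)).real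
      {K | ∀ I ∈ l, K ∈ Hit I}) atTop (𝓝 (hit lam l 0)))
    (h2 : ∀ᶠ n in atTop, ∀ᵐ K ∂(μ n : Measure (NonemptyCompacts unitInterval)), 0 ∈ K ∧ 1 ∈ K)
    {ν : ProbabilityMeasure (NonemptyCompacts unitInterval)} (hν : MapClusterPt ν atTop μ) :
    (∀ᵐ K ∂(ν : Measure (NonemptyCompacts unitInterval)), 0 ∈ K ∧ 1 ∈ K) ∧ ∀ l, Ord 0 l 1 →
      (ν : Measure (NonemptyCompacts unitInterval)).real {K | ∀ I ∈ l, K ∈ Hit I} =
        hit lam l 0 := by
  obtain ⟨U, hU, ht⟩ := mapClusterPt_iff_ultrafilter.1 hν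
  have h3 : ∀ l, Ord 0 l 1 → Tendsto (fun n => (μ n : Measure (NonemptyCompacts unitInterval))
      {K | ∀ I ∈ l, K ∈ Hit I}) U (𝓝 (ENNReal.ofReal (hit lam l 0))) := fun l hl => by
    simpa only [ofReal_measureReal (measure_ne_top _ _)] using
      (ENNReal.tendsto_ofReal (h1 l hl)).mono_left hU
  have h4 : ∀ l, Ord 0 l 1 → (ν : Measure (NonemptyCompacts unitInterval)) (HitO l) ≤
      ENNReal.ofReal (hit lam l 0) := fun l hl => by
    refine (ProbabilityMeasure.le_liminf_measure_open_of_tendsto ht (hitO_open l)).trans ?_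
    rw [← (h3 l hl).liminf_eq]
    exact liminf_le_liminf (Eventually.of_forall fun n => measure_mono (hitO_sub l))
  refine ⟨?_, fun l hl => ?_⟩
  · have := ProbabilityMeasure.limsup_measure_closed_le_of_tendsto ht ends_closed
    have e : Tendsto (fun n => (μ n : Measure (NonemptyCompacts unitInterval))
        {K | 0 ∈ K ∧ 1 ∈ K}) U (𝓝 1) := tendsto_const_nhds.congr' <| (h2.filter_mono hU).mono
      fun n hn => ((prob_compl_eq_zero_iff ends_closed.measurableSet).1 (ae_iff.1 hn)).symm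
    rw [e.limsup_eq] at this
    exact ae_iff.2 ((prob_compl_eq_zero_iff ends_closed.measurableSet).2
      (le_antisymm prob_le_one this))
  · have k1 := ProbabilityMeasure.limsup_measure_closed_le_of_tendsto ht (all_closed l)
    rw [(h3 l hl).limsup_eq] at k1
    have k2 := (measure_le_inter_add_sdiff (ν : Measure (NonemptyCompacts unitInterval))
      {K | ∀ I ∈ l, K ∈ Hit I} (HitO l)).trans_eq (by
        rw [ae_hitO l1 (fun a b a0 ab b1 => h4 _ ⟨a0, ab, b1⟩) hl, add_zero])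
    rw [Measure.real, le_antisymm (k2.trans ((measure_mono inter_subset_right).trans (h4 l hl))) k1,
      ENNReal.toReal_ofReal (ge_of_tendsto' (h1 l hl) fun _ => measureReal_nonneg)]

end Pool.Agent.Lib.MP_4960b8_pr.UN
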