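import Pool.Agent.Lib.MP_4960b8_pr.RN.Defs

/-! The set of cut levels of a walk, rescaled, as a compact subset of `[0, 1]`. -/

namespace Pool.Agent.Lib.MP_4960b8_pr.UN

open SAW RN TopologicalSpace

lemma clip_finite (T : ℝ) :
    (Set.range fun t : ℤ => Set.projIcc (0 : ℝ) 1 zero_le_one (t / T)).Finite := by
  refine (((Set.finite_Icc (-⌈|T|⌉) ⌈|T|⌉).image
    fun t : ℤ => Set.projIcc (0 : ℝ) 1 zero_le_one (t / T)).union
      (Set.toFinite {⟨0, le_rfl, zero_le_one⟩, ⟨1, zero_le_one, le_rfl⟩})).subset ?_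
  rintro _ ⟨t, rfl⟩
  by_cases h : |t| ≤ ⌈|T|⌉
  · exact Or.inl ⟨t, abs_le.1 h, rfl⟩
  · have h1 : |T| ≤ |(t : ℝ)| := by
      rw [← Int.cast_abs]
      exact (Int.le_ceil _).trans (by exact_mod_cast (not_le.1 h).le)
    rcases le_or_gt ((t : ℝ) / T) 0 with h2 | h2
    · exact Or.inr (Or.inl (Set.projIcc_of_le_left _ h2))
    · refine Or.inr (Or.inr (Set.projIcc_of_right_le _ ?_))
      have h3 : T ≠ 0 := by
        rintro rfl
        simp at h2
      rw [← abs_of_pos h2, abs_div, one_le_div (abs_pos.2 h3)]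
      exact h1

lemma cut_exists (γ : List V) : {t | IsCut γ t}.Nonempty := by
  obtain ⟨t, ht⟩ := ((List.finite_toSet γ).image V.k).bddBelow
  exact ⟨t, 0, by simp, fun v hv => ht ⟨v, by simpa using hv, rfl⟩⟩

/-- The cut levels of the walk `γ`, divided by `T` and clipped to `[0, 1]` (a number below `0` is
replaced by `0`, a number above `1` by `1`): a finite nonempty subset of `[0, 1]`. -/
noncomputable def cuts (T : ℝ) (γ : List V) : NonemptyCompacts unitInterval :=
  ⟨⟨(fun t : ℤ => Set.projIcc (0 : ℝ) 1 zero_le_one (t / T)) '' {t | IsCut γ t},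
    ((clip_finite T).subset (Set.image_subset_range _ _)).isCompact⟩, (cut_exists γ).image _⟩

end Pool.Agent.Lib.MP_4960b8_pr.UN
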