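import Pool.Agent.Lib.MP_4960b8_pr.UN.Main

/-! Check (not imported by any hand-in): the statement `main`, taken as a hypothesis, gives back
the statements of the two earlier hand-ins `BridgeLimit` and `CutLevels`. -/

namespace Pool.Agent.Lib.MP_4960b8_pr.UN

open SAW QK RN TopologicalSpace MeasureTheory Set Filter Topology

lemma hit_scale {h : ℝ} (h0 : 0 < h) (lam : ℝ) : ∀ (l : List (ℝ × ℝ)) (s : ℝ),
    hit (lam / h) l (h * s) = hit lam (l.map fun I => (I.1 / h, I.2 / h)) s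
  | [], s => by
    simp only [hit, List.map_nil]
    congr 2
    field_simp
  | I :: l, s => by
    have e := intervalIntegral.smul_integral_comp_mul_left (a := I.1 / h) (b := I.2 / h)
      (fun d => RN.ker (h * s) I.1 d * hit (lam / h) l d) h
    rw [mul_div_cancel₀ _ h0.ne', mul_div_cancel₀ _ h0.ne'] at e
    rw [List.map_cons, hit_cons, hit_cons, ← e, ← intervalIntegral.integral_smul]
    refine intervalIntegral.integral_congr fun d _ => ?_
    simp only [hit_scale h0 lam l d, smul_eq_mul, RN.ker]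
    rw [show (I.1 - h * s) / (h * d - I.1) = (I.1 / h - s) / (d - I.1 / h) by
      rw [← mul_div_mul_left (I.1 / h - s) _ h0.ne', mul_sub, mul_sub, mul_div_cancel₀ _ h0.ne'],
      ← mul_sub, ← mul_assoc, ← mul_div_assoc, mul_div_mul_left _ _ h0.ne']

lemma ord_scale {h : ℝ} (h0 : 0 < h) : ∀ {l : List (ℝ × ℝ)} {lo : ℝ}, Ord lo l h →
    Ord (lo / h) (l.map fun I => (I.1 / h, I.2 / h)) 1
  | [], _, k => (div_lt_one h0).2 k
  | _ :: _, _, k => ⟨div_lt_div_of_pos_right k.1 h0, div_lt_div_of_pos_right k.2.1 h0,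
      ord_scale h0 k.2.2⟩

variable [MeasurableSpace (NonemptyCompacts unitInterval)]

theorem implies_bridge (H : ∃ c : ℝ, 0 < c ∧ ∀ lam : ℝ, 0 ≤ lam → lam ≤ 1 →
    ∃ ν : Measure (NonemptyCompacts unitInterval),
      (∀ μ : Measure (NonemptyCompacts unitInterval), (IsProbabilityMeasure μ ∧
        (∀ᵐ K ∂μ, 0 ∈ K ∧ 1 ∈ K) ∧ ∀ l, Ord 0 l 1 →
          μ.real {K | ∀ I ∈ l, ∃ x ∈ K, I.1 ≤ (x : ℝ) ∧ (x : ℝ) ≤ I.2} = hit lam l 0) ↔ μ = ν) ∧
      ∀ (T : ℕ → ℝ) (N : ℕ → ℕ), Tendsto T atTop atTop → (∀ n, T n ≤ N n) →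
        Tendsto (fun n => T n / N n) atTop (𝓝 lam) →
        ∀ f : C(NonemptyCompacts unitInterval, ℝ), Tendsto (fun n => (N n : ℝ) ^ (1 / 4 : ℝ) *
          ∑' γ : bridges (N n), xc ^ γ.1.length * f (cuts (T n) γ.1)) atTop
            (𝓝 (c * ∫ K, f K ∂ν))) :
    ∃ c : ℝ, 0 < c ∧ Tendsto
      (fun T : ℕ => (T : ℝ) ^ (1 / 4 : ℝ) * ∑' γ : bridges T, xc ^ γ.1.length) atTop (𝓝 c) := by
  obtain ⟨c, hc, H⟩ := H
  obtain ⟨ν, h1, h2⟩ := H 1 zero_le_one le_rfl
  have := ((h1 ν).2 rfl).1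
  refine ⟨c, hc, ?_⟩
  simpa using h2 (fun n => n) id tendsto_natCast_atTop_atTop (fun _ => le_rfl)
    (tendsto_const_nhds.congr' ((eventually_gt_atTop 0).mono fun n hn =>
      (div_self (Nat.cast_ne_zero.2 hn.ne')).symm)) 1

variable [BorelSpace (NonemptyCompacts unitInterval)]

theorem implies_cut (H : type_of% main) (l : List (ℝ × ℝ)) (hi : ℝ) (hl : Ord 0 l hi) (ε : ℝ)
    (hε : 0 < ε) : ∃ T₀ : ℕ, ∀ T : ℕ, T₀ ≤ T → ∀ N : ℕ, hi * T ≤ N →
      |tot {γ | γ ∈ bridges N ∧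
          ∀ I ∈ l, ∃ t : ℤ, I.1 * T ≤ t ∧ (t : ℝ) ≤ I.2 * T ∧ IsCut γ t} / tot (bridges N) -
        hit ((T : ℝ) / N) l 0| ≤ ε := by
  obtain ⟨c, hc, H⟩ := H
  have h0 : 0 < hi := (ord_mem hl).1
  have hl' := ord_scale h0 hl
  rw [zero_div] at hl'
  by_contra hn
  push Not at hn
  choose T hT N hN hb using hn
  have m : ∀ n, hi * T n / N n ∈ Icc (0 : ℝ) 1 := fun n =>
    ⟨by positivity, div_le_one_of_le₀ (hN n) (Nat.cast_nonneg _)⟩
  obtain ⟨lam, ⟨l0, l1⟩, φ, hφ, ht⟩ := isCompact_Icc.tendsto_subseq m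
  obtain ⟨ν, h1, h2⟩ := H lam l0 l1
  obtain ⟨p0, -, p2⟩ := (h1 ν).2 rfl
  have t1 : Tendsto (fun n => hi * T (φ n)) atTop atTop := (tendsto_natCast_atTop_atTop.comp
    ((tendsto_atTop_mono hT tendsto_id).comp hφ.tendsto_atTop)).const_mul_atTop h0
  have ev : ∀ᶠ n in atTop, 0 < hi * T (φ n) ∧ 1 ≤ N (φ n) := (t1.eventually_ge_atTop 1).mono
    fun n hn => ⟨one_pos.trans_le hn, by exact_mod_cast hn.trans (hN _)⟩
  have h3 := h2 _ (fun n => N (φ n)) t1 (fun n => hN _) ht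
  have t2 : Tendsto (fun n => law (hi * T (φ n)) (N (φ n))) atTop (𝓝 ⟨ν, p0⟩) := by
    refine ProbabilityMeasure.tendsto_iff_forall_integral_tendsto.2 fun f => ?_
    have k := (h3 f.toContinuousMap).div (h3 1) (by simpa using hc.ne')
    simp only [ContinuousMap.one_apply, integral_const, probReal_univ, smul_eq_mul, mul_one,
      mul_div_cancel_left₀ _ hc.ne'] at k
    refine k.congr' (ev.mono fun n hn => ?_)
    have : (0 : ℝ) < N (φ n) := by exact_mod_cast hn.2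
    beta_reduce
    rw [law_int _ hn.2, Pi.div_apply, mul_div_mul_left _ _ (Real.rpow_pos_of_pos this _).ne']
    rfl
  have z := ae_hitO (ν := ν) l1 (fun a b a0 ab b1 => by
    rw [← p2 [(a, b)] ⟨a0, ab, b1⟩, ofReal_measureReal (measure_ne_top _ _)]
    exact measure_mono (hitO_sub _)) hl'
  have t3 := (ENNReal.tendsto_toReal (measure_ne_top ν _)).comp
    (ProbabilityMeasure.tendsto_measure_of_null_frontier_of_tendsto' t2
      (E := {K | ∀ I ∈ l.map fun I => (I.1 / hi, I.2 / hi), K ∈ Hit I}) (measure_mono_null (by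
        rw [(all_closed _).frontier_eq]
        exact sdiff_subset_sdiff_right (interior_maximal (hitO_sub _) (hitO_open _))) z))
  have t4 : Tendsto (fun n => hit ((T (φ n) : ℝ) / N (φ n)) l 0) atTop
      (𝓝 (hit (lam / hi) l 0)) := by
    have e : ∀ n, (T n : ℝ) / N n = hi * T n / N n / hi := fun n => by field_simp
    refine (hit_cont le_rfl hl (lam / hi, 0) ⟨⟨by positivity, ?_⟩, le_rfl, le_rfl⟩).tendsto.comp
      (f := fun n => ((T (φ n) : ℝ) / N (φ n), (0 : ℝ))) (tendsto_nhdsWithin_iff.2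
        ⟨Tendsto.prodMk_nhds ?_ tendsto_const_nhds, Eventually.of_forall fun n =>
          ⟨⟨by positivity, ?_⟩, le_rfl, le_rfl⟩⟩)
    · rw [← one_div]
      exact div_le_div_of_nonneg_right l1 h0.le
    · simp only [e]
      exact ht.div_const hi
    · rw [← one_div, e]
      exact div_le_div_of_nonneg_right (m _).2 h0.le
  have e0 := hit_scale h0 lam l 0
  rw [mul_zero, ← p2 _ hl'] at e0
  have t5 := (t3.sub t4).abs
  rw [e0] at t5
  have t6 : ε ≤ |ν.real {K | ∀ I ∈ l.map fun I => (I.1 / hi, I.2 / hi), K ∈ Hit I} -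
      ν.real {K | ∀ I ∈ l.map fun I => (I.1 / hi, I.2 / hi), K ∈ Hit I}| := by
    refine ge_of_tendsto t5 (ev.mono fun n hn => (hb (φ n)).le.trans_eq ?_)
    have k := law_hit hn.1 hn.2 hl'
    simp only [List.forall_mem_map, ← mul_assoc, div_mul_cancel₀ _ h0.ne'] at k
    rw [← k]
    simp only [List.forall_mem_map]
    rfl
  rw [sub_self, abs_zero] at t6
  exact t6.not_gt hε

example : ∃ c : ℝ, 0 < c ∧ Tendsto
    (fun T : ℕ => (T : ℝ) ^ (1 / 4 : ℝ) * ∑' γ : bridges T, xc ^ γ.1.length) atTop (𝓝 c) :=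
  implies_bridge main

end Pool.Agent.Lib.MP_4960b8_pr.UN
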