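import Pool.Agent.Lib.MP_4960b8_pr.UN.Clus
import Pool.Agent.Lib.MP_4960b8_pr.RN.Main

/-! Weak convergence of the rescaled set of cut levels, with the normalisation `N ^ (1/4)`. -/

namespace Pool.Agent.Lib.MP_4960b8_pr.UN

open SAW QK RN TopologicalSpace MeasureTheory Set Filter Topology

lemma tot_pos {N : ℕ} (hN : 1 ≤ N) : 0 < tot (bridges N) := by
  obtain ⟨c', C', hc', hb⟩ := final_of_good good
  have hN1 : (0 : ℝ) < N := by exact_mod_cast hN
  exact lt_of_lt_of_le (by positivity) (hb N hN).2.1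

lemma mem_cuts {T : ℝ} {γ : List V} {x : unitInterval} :
    x ∈ cuts T γ ↔ ∃ t : ℤ, IsCut γ t ∧ projIcc (0 : ℝ) 1 zero_le_one (t / T) = x := Iff.rfl

lemma cuts_ends {T : ℝ} (hT : 0 < T) {N : ℕ} {γ : List V} (hγ : γ ∈ bridges N) :
    0 ∈ cuts T γ ∧ 1 ∈ cuts T γ := by
  refine ⟨mem_cuts.2 ⟨0, cut_of_le hγ le_rfl, projIcc_of_le_left _ (by simp)⟩,
    mem_cuts.2 ⟨max N ⌈T⌉, cut_of_ge hγ (le_max_left _ _), projIcc_of_right_le _ ?_⟩⟩
  rw [one_le_div hT]
  exact (Int.le_ceil T).trans (by exact_mod_cast le_max_right _ _)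

lemma cuts_hit {T : ℝ} (hT : 0 < T) {γ : List V} {I : ℝ × ℝ} (h0 : 0 < I.1) (h1 : I.2 < 1) :
    cuts T γ ∈ Hit I ↔ ∃ t : ℤ, I.1 * T ≤ t ∧ (t : ℝ) ≤ I.2 * T ∧ IsCut γ t := by
  constructor
  · rintro ⟨_, ⟨t, ht, rfl⟩, x1, x2⟩
    simp only [coe_projIcc] at x1 x2
    refine ⟨t, (le_div_iff₀ hT).1 ?_, (div_le_iff₀ hT).1 ?_, ht⟩
    · exact ((le_max_iff.1 x1).resolve_left (not_le.2 h0)).trans (min_le_right _ _)
    · exact (min_le_iff.1 ((le_max_right _ _).trans x2)).resolve_left (not_le.2 h1)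
  · rintro ⟨t, t1, t2, ht⟩
    rw [← le_div_iff₀ hT] at t1
    rw [← div_le_iff₀ hT] at t2
    refine ⟨_, mem_cuts.2 ⟨t, ht, rfl⟩, ?_⟩
    rw [projIcc_of_mem _ ⟨h0.le.trans t1, t2.trans h1.le⟩]
    exact ⟨t1, t2⟩

lemma cuts_dist {T S : ℝ} (hS : 0 < S) (h1 : S ≤ T) (h2 : T ≤ S + 1) (γ : List V) :
    dist (cuts T γ) (cuts S γ) ≤ 1 / S := by
  have hT : 0 < T := hS.trans_le h1
  have k : ∀ t : ℤ, dist (projIcc (0 : ℝ) 1 zero_le_one (t / T))
      (projIcc (0 : ℝ) 1 zero_le_one (t / S)) ≤ 1 / S := fun t => by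
    rcases le_total (t : ℝ) 0 with c | c
    · rw [projIcc_of_le_left _ (div_nonpos_of_nonpos_of_nonneg c hT.le),
        projIcc_of_le_left _ (div_nonpos_of_nonpos_of_nonneg c hS.le), dist_self]
      positivity
    rcases le_total T t with d | d
    · rw [projIcc_of_right_le _ ((one_le_div hT).2 d),
        projIcc_of_right_le _ ((one_le_div hS).2 (h1.trans d)), dist_self]
      positivity
    refine ((LipschitzWith.projIcc zero_le_one).dist_le_mul _ _).trans ?_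
    rw [NNReal.coe_one, one_mul, Real.dist_eq, abs_sub_comm,
      abs_of_nonneg (sub_nonneg.2 (div_le_div_of_nonneg_left c hS h1)), div_sub_div _ _ hS.ne' hT.ne',
      div_le_div_iff₀ (mul_pos hS hT) hS]
    have : t * T - S * t ≤ T := by nlinarith
    nlinarith
  rw [Metric.NonemptyCompacts.dist_eq]
  refine Metric.hausdorffDist_le_of_mem_dist (by positivity) ?_ ?_
  · rintro _ ⟨t, ht, rfl⟩
    exact ⟨_, ⟨t, ht, rfl⟩, k t⟩
  · rintro _ ⟨t, ht, rfl⟩
    exact ⟨_, ⟨t, ht, rfl⟩, (dist_comm _ _).trans_le (k t)⟩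

lemma sum_mul (N : ℕ) {g : List V → ℝ} {M : ℝ} (h : ∀ γ, |g γ| ≤ M) :
    Summable fun γ : bridges N => xc ^ γ.1.length * g γ.1 :=
  ((bridges_summable N).mul_right M).of_norm_bounded fun γ => by
    rw [Real.norm_eq_abs, abs_mul, abs_of_pos (pow_pos xc_pos _)]
    exact mul_le_mul_of_nonneg_left (h _) (pow_pos xc_pos _).le

variable [MeasurableSpace (NonemptyCompacts unitInterval)]

/-- the law of the rescaled set of cut levels -/
noncomputable def law (T : ℝ) (N : ℕ) : ProbabilityMeasure (NonemptyCompacts unitInterval) :=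
  ⟨Measure.sum fun γ : bridges (max N 1) => ENNReal.ofReal
      (xc ^ γ.1.length / tot (bridges (max N 1))) • Measure.dirac (cuts T γ.1),
    HasSum.isProbabilityMeasure_sum_dirac
      (fun _ => div_nonneg (pow_pos xc_pos _).le (tot_nonneg _)) (by
        have := (bridges_summable (max N 1)).hasSum.div_const (tot (bridges (max N 1)))
        rwa [show ∑' γ : bridges (max N 1), xc ^ γ.1.length = tot (bridges (max N 1)) from rfl,
          div_self (tot_pos (le_max_right _ _)).ne'] at this)⟩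

variable [BorelSpace (NonemptyCompacts unitInterval)]

lemma law_int (T : ℝ) {N : ℕ} (hN : 1 ≤ N) (f : NonemptyCompacts unitInterval → ℝ) :
    ∫ K, f K ∂(law T N : Measure (NonemptyCompacts unitInterval)) =
      (∑' γ : bridges N, xc ^ γ.1.length * f (cuts T γ.1)) / tot (bridges N) := by
  have : Countable V := Function.Injective.countable (f := fun v : V => (v.i, v.j, v.k))
    fun u v h => by
      simp only [Prod.mk.injEq] at h
      exact V.ext h.1 h.2.1 h.2.2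
  simp only [law, ProbabilityMeasure.coe_mk]
  rw [max_eq_left hN, integral_sum_dirac (fun _ => ENNReal.ofReal_ne_top), ← tsum_div_const]
  refine tsum_congr fun γ => ?_
  rw [ENNReal.toReal_ofReal (div_nonneg (pow_pos xc_pos _).le (tot_nonneg _)), smul_eq_mul]
  ring

lemma law_real (T : ℝ) {N : ℕ} (hN : 1 ≤ N) {A : Set (NonemptyCompacts unitInterval)}
    (hA : MeasurableSet A) : (law T N : Measure (NonemptyCompacts unitInterval)).real A =
      tot {γ | γ ∈ bridges N ∧ cuts T γ ∈ A} / tot (bridges N) := by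
  rw [← integral_indicator_one hA, law_int T hN]
  congr 1
  rw [tot, tsum_subtype (bridges N) fun γ => xc ^ γ.length * A.indicator 1 (cuts T γ),
    tsum_subtype _ fun γ : List V => xc ^ γ.length]
  refine tsum_congr fun γ => ?_
  by_cases h1 : γ ∈ bridges N <;> by_cases h2 : cuts T γ ∈ A <;> simp [h1, h2]

lemma law_hit {T : ℝ} (hT : 0 < T) {N : ℕ} (hN : 1 ≤ N) {l : List (ℝ × ℝ)} (hl : Ord 0 l 1) :
    (law T N : Measure (NonemptyCompacts unitInterval)).real {K | ∀ I ∈ l, K ∈ Hit I} =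
      tot {γ | γ ∈ bridges N ∧
        ∀ I ∈ l, ∃ t : ℤ, I.1 * T ≤ t ∧ (t : ℝ) ≤ I.2 * T ∧ IsCut γ t} / tot (bridges N) := by
  rw [law_real T hN (all_closed l).measurableSet]
  congr 2
  ext γ
  exact and_congr_right fun _ => forall₂_congr fun I hI =>
    cuts_hit hT ((ord_mem hl).2 I hI).1 ((ord_mem hl).2 I hI).2.2

lemma law_ends {T : ℝ} (hT : 0 < T) {N : ℕ} (hN : 1 ≤ N) :
    ∀ᵐ K ∂(law T N : Measure (NonemptyCompacts unitInterval)), 0 ∈ K ∧ 1 ∈ K := by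
  refine ae_iff.2 ((prob_compl_eq_zero_iff ends_closed.measurableSet).2 ?_)
  rw [← ofReal_measureReal (measure_ne_top _ _), law_real T hN ends_closed.measurableSet,
    show {γ | γ ∈ bridges N ∧ cuts T γ ∈ {K : NonemptyCompacts unitInterval | 0 ∈ K ∧ 1 ∈ K}} =
      bridges N from Set.ext fun γ => ⟨fun h => h.1, fun h => ⟨h, cuts_ends hT h⟩⟩,
    div_self (tot_pos hN).ne', ENNReal.ofReal_one]

section

variable {lam : ℝ} {T : ℕ → ℝ} {N : ℕ → ℕ} (h1 : Tendsto T atTop atTop) (h2 : ∀ n, T n ≤ N n)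
  (h3 : Tendsto (fun n => T n / N n) atTop (𝓝 lam))
include h1 h2 h3

lemma floor_cluster (l0 : 0 ≤ lam) (l1 : lam ≤ 1)
    {ν : ProbabilityMeasure (NonemptyCompacts unitInterval)}
    (hν : MapClusterPt ν atTop fun n => law ⌊T n⌋₊ (N n)) :
    (∀ᵐ K ∂(ν : Measure (NonemptyCompacts unitInterval)), 0 ∈ K ∧ 1 ∈ K) ∧ ∀ l, Ord 0 l 1 →
      (ν : Measure (NonemptyCompacts unitInterval)).real {K | ∀ I ∈ l, K ∈ Hit I} =
        hit lam l 0 := by
  have t1 := tendsto_nat_floor_atTop.comp h1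
  have t2 : Tendsto (fun n => (N n : ℝ)) atTop atTop := tendsto_atTop_mono h2 h1
  have ev : ∀ᶠ n in atTop, (0 : ℝ) < ⌊T n⌋₊ ∧ 1 ≤ N n ∧ (⌊T n⌋₊ : ℝ) ≤ T n := by
    filter_upwards [h1.eventually_ge_atTop 1] with n hn
    exact ⟨by exact_mod_cast Nat.floor_pos.2 hn, by exact_mod_cast hn.trans (h2 n),
      Nat.floor_le (zero_le_one.trans hn)⟩
  have t3 : Tendsto (fun n => (⌊T n⌋₊ : ℝ) / N n) atTop (𝓝 lam) := by
    have := h3.sub t2.inv_tendsto_atTop
    rw [sub_zero] at this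
    refine tendsto_of_tendsto_of_tendsto_of_le_of_le' this h3 ?_ ?_
    · refine Eventually.of_forall fun n => ?_
      rw [Pi.inv_apply, ← one_div, ← sub_div]
      exact div_le_div_of_nonneg_right (by linarith [Nat.lt_floor_add_one (T n)]) (Nat.cast_nonneg _)
    · exact ev.mono fun n hn => div_le_div_of_nonneg_right hn.2.2 (Nat.cast_nonneg _)
  refine cluster l1 (fun l hl => ?_) (ev.mono fun n hn => law_ends hn.1 hn.2.1) hν
  have t4 : Tendsto (fun n => hit ((⌊T n⌋₊ : ℝ) / N n) l 0) atTop (𝓝 (hit lam l 0)) := by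
    refine (hit_cont le_rfl hl (lam, 0) ⟨⟨l0, by simpa using l1⟩, le_rfl, le_rfl⟩).tendsto.comp
      (f := fun n => ((⌊T n⌋₊ : ℝ) / N n, (0 : ℝ))) (tendsto_nhdsWithin_iff.2
        ⟨t3.prodMk_nhds tendsto_const_nhds, ev.mono fun n hn => ⟨⟨by positivity, ?_⟩, le_rfl, le_rfl⟩⟩)
    rw [inv_one]
    exact div_le_one_of_le₀ (hn.2.2.trans (h2 n)) (Nat.cast_nonneg _)
  refine t4.congr_dist (Metric.tendsto_nhds.2 fun ε hε => ?_)
  obtain ⟨T₀, hT₀⟩ := cut_lim hl (half_pos hε)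
  filter_upwards [ev, t1.eventually_ge_atTop T₀] with n hn hn'
  rw [law_hit hn.1 hn.2.1 hl, Real.dist_0_eq_abs, abs_of_nonneg dist_nonneg, dist_comm, Real.dist_eq]
  exact (hT₀ _ hn' (N n) (by rw [one_mul]; exact hn.2.2.trans (h2 n))).2.trans_lt (half_lt_self hε)

omit h3 in
lemma floor_close (f : C(NonemptyCompacts unitInterval, ℝ)) : Tendsto (fun n =>
    dist (∫ K, f K ∂(law ⌊T n⌋₊ (N n) : Measure (NonemptyCompacts unitInterval)))
      (∫ K, f K ∂(law (T n) (N n) : Measure (NonemptyCompacts unitInterval)))) atTop (𝓝 0) := by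
  refine Metric.tendsto_nhds.2 fun ε hε => ?_
  obtain ⟨δ, δ0, hδ⟩ := Metric.uniformContinuous_iff_le.1
    (CompactSpace.uniformContinuous_of_continuous f.continuous) _ (half_pos hε)
  filter_upwards [h1.eventually_ge_atTop 1, h1.eventually_ge_atTop (1 / δ + 1)] with n hn hn'
  have hN : 1 ≤ N n := by exact_mod_cast hn.trans (h2 n)
  have f0 : (0 : ℝ) < ⌊T n⌋₊ := by exact_mod_cast Nat.floor_pos.2 hn
  have f1 := Nat.lt_floor_add_one (T n)
  have k : ∀ γ, |f (cuts ⌊T n⌋₊ γ) - f (cuts (T n) γ)| ≤ ε / 2 := fun γ => by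
    refine hδ ((dist_comm _ _).trans_le
      ((cuts_dist f0 (Nat.floor_le (zero_le_one.trans hn)) f1.le γ).trans ?_))
    rw [one_div_le f0 δ0]
    linarith
  have b : ∀ S γ, |f (cuts S γ)| ≤ ‖f‖ := fun S γ => f.norm_coe_le_norm _
  rw [law_int _ hN, law_int _ hN, Real.dist_0_eq_abs, abs_of_nonneg dist_nonneg, Real.dist_eq,
    ← sub_div, ← (sum_mul _ (b _)).tsum_sub (sum_mul _ (b _)), abs_div, abs_of_pos (tot_pos hN)]
  refine lt_of_le_of_lt ((div_le_iff₀' (tot_pos hN)).2 ?_) (half_lt_self hε)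
  rw [← Real.norm_eq_abs]
  refine tsum_of_norm_bounded ((bridges_summable (N n)).hasSum.mul_right (ε / 2)) fun γ => ?_
  rw [← mul_sub, Real.norm_eq_abs, abs_mul, abs_of_pos (pow_pos xc_pos _)]
  exact mul_le_mul_of_nonneg_left (k _) (pow_pos xc_pos _).le

end

theorem main : ∃ c : ℝ, 0 < c ∧ ∀ lam : ℝ, 0 ≤ lam → lam ≤ 1 →
    ∃ ν : Measure (NonemptyCompacts unitInterval),
      (∀ μ : Measure (NonemptyCompacts unitInterval), (IsProbabilityMeasure μ ∧
        (∀ᵐ K ∂μ, 0 ∈ K ∧ 1 ∈ K) ∧ ∀ l, Ord 0 l 1 →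
          μ.real {K | ∀ I ∈ l, ∃ x ∈ K, I.1 ≤ (x : ℝ) ∧ (x : ℝ) ≤ I.2} = hit lam l 0) ↔ μ = ν) ∧
      ∀ (T : ℕ → ℝ) (N : ℕ → ℕ), Tendsto T atTop atTop → (∀ n, T n ≤ N n) →
        Tendsto (fun n => T n / N n) atTop (𝓝 lam) →
        ∀ f : C(NonemptyCompacts unitInterval, ℝ), Tendsto (fun n => (N n : ℝ) ^ (1 / 4 : ℝ) *
          ∑' γ : bridges (N n), xc ^ γ.1.length * f (cuts (T n) γ.1)) atTop
            (𝓝 (c * ∫ K, f K ∂ν)) := by
  obtain ⟨c, hc, hb⟩ := bridge_lim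
  refine ⟨c, hc, fun lam l0 l1 => ?_⟩
  have s1 : Tendsto (fun n : ℕ => lam * ((n : ℝ) + 1) ^ 2 + (1 - lam) * (n + 1)) atTop atTop := by
    refine tendsto_atTop_mono (fun n => ?_) tendsto_natCast_atTop_atTop
    have : (0 : ℝ) ≤ n := Nat.cast_nonneg _
    nlinarith [mul_nonneg l0 (mul_nonneg this this), mul_nonneg l0 this]
  have s2 : ∀ n : ℕ, lam * ((n : ℝ) + 1) ^ 2 + (1 - lam) * (n + 1) ≤ ((n + 1) ^ 2 : ℕ) := fun n => by
    have : (0 : ℝ) ≤ n := Nat.cast_nonneg _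
    push_cast
    nlinarith [mul_nonneg (sub_nonneg.2 l1) (mul_nonneg this this), mul_nonneg (sub_nonneg.2 l1) this]
  have s3 : Tendsto (fun n : ℕ => (lam * ((n : ℝ) + 1) ^ 2 + (1 - lam) * (n + 1)) /
      ((n + 1) ^ 2 : ℕ)) atTop (𝓝 lam) := by
    have := (tendsto_one_div_add_atTop_nhds_zero_nat.const_mul (1 - lam)).const_add lam
    rw [mul_zero, add_zero] at this
    refine this.congr fun n => ?_
    push_cast
    field_simp
  obtain ⟨ν, -, hν⟩ := isCompact_univ.exists_mapClusterPt (f := atTop)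
    (u := fun n : ℕ => law ⌊lam * ((n : ℝ) + 1) ^ 2 + (1 - lam) * (n + 1)⌋₊ ((n + 1) ^ 2))
    (by simp)
  obtain ⟨p1, p2⟩ := floor_cluster s1 s2 s3 l0 l1 hν
  have un : ∀ μ : Measure (NonemptyCompacts unitInterval), IsProbabilityMeasure μ →
      (∀ᵐ K ∂μ, 0 ∈ K ∧ 1 ∈ K) → (∀ l, Ord 0 l 1 →
        μ.real {K | ∀ I ∈ l, K ∈ Hit I} = hit lam l 0) → μ = ν := fun μ _ q1 q2 =>
    law_unique (fun l hl => (measureReal_eq_measureReal_iff (measure_ne_top _ _)
      (measure_ne_top _ _)).1 ((q2 l hl).trans (p2 l hl).symm)) q1 p1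
  refine ⟨ν, fun μ => ⟨fun h => un μ h.1 h.2.1 h.2.2, fun h => h ▸ ⟨inferInstance, p1, p2⟩⟩,
    fun T N h1 h2 h3 f => ?_⟩
  have t : Tendsto (fun n => law ⌊T n⌋₊ (N n)) atTop (𝓝 ν) :=
    tendsto_nhds_of_unique_mapClusterPt fun μ hμ =>
      let ⟨q1, q2⟩ := floor_cluster h1 h2 h3 l0 l1 hμ
      ProbabilityMeasure.toMeasure_injective (un μ inferInstance q1 q2)
  have t' := (ProbabilityMeasure.tendsto_iff_forall_integral_tendsto.1 t
    (BoundedContinuousFunction.mkOfCompact f)).congr_dist (floor_close h1 h2 f)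
  have t2 : Tendsto N atTop atTop := tendsto_natCast_atTop_iff.1 (tendsto_atTop_mono h2 h1)
  refine ((hb.comp t2).mul t').congr' ?_
  filter_upwards [t2.eventually_ge_atTop 1] with n hn
  rw [law_int _ hn, Function.comp_apply, mul_assoc, mul_div_cancel₀ _ (tot_pos hn).ne']

end Pool.Agent.Lib.MP_4960b8_pr.UN
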