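import Pool.Agent.Lib.MP_4960b8_pr.UN.Defs

/-! A law on the compact subsets of `[0, 1]` that contain `0` and `1` is determined by the
probabilities of meeting ordered families of intervals. -/

namespace Pool.Agent.Lib.MP_4960b8_pr.UN

open RN TopologicalSpace MeasureTheory Set

/-- compact sets meeting the closed interval `I` -/
def Hit (I : ℝ × ℝ) : Set (NonemptyCompacts unitInterval) :=
  {K | ∃ x ∈ K, I.1 ≤ (x : ℝ) ∧ (x : ℝ) ≤ I.2}

/-- compact sets meeting none of the closed intervals of `A` -/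
def Av (A : Finset (ℝ × ℝ)) : Set (NonemptyCompacts unitInterval) := {K | ∀ I ∈ A, K ∉ Hit I}

lemma hit_closed (I : ℝ × ℝ) : IsClosed (Hit I) :=
  NonemptyCompacts.isClosed_inter_nonempty_of_isClosed
    (F := {x : unitInterval | I.1 ≤ (x : ℝ) ∧ (x : ℝ) ≤ I.2})
    (isClosed_Icc.preimage continuous_subtype_val)

lemma av_open (A : Finset (ℝ × ℝ)) : IsOpen (Av A) := by
  have : Av A = ⋂ I ∈ A, (Hit I)ᶜ := by
    ext K
    simp [Av]
  rw [this]
  exact isOpen_biInter_finset fun I _ => (hit_closed I).isOpen_compl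

lemma all_closed (l : List (ℝ × ℝ)) :
    IsClosed {K : NonemptyCompacts unitInterval | ∀ I ∈ l, K ∈ Hit I} := by
  have : {K : NonemptyCompacts unitInterval | ∀ I ∈ l, K ∈ Hit I} = ⋂ I ∈ l, Hit I := by
    ext K
    simp
  rw [this]
  exact isClosed_biInter fun I _ => hit_closed I

lemma sort_ord (S : Finset (ℝ × ℝ)) : ∀ lo : ℝ, lo < 1 →
    (∀ I ∈ S, lo < I.1 ∧ I.1 < I.2 ∧ I.2 < 1) →
    (∀ I ∈ S, ∀ J ∈ S, I ≠ J → I.2 < J.1 ∨ J.2 < I.1) → ∃ l, Ord lo l 1 ∧ ∀ I, I ∈ l ↔ I ∈ S := by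
  classical
  refine Finset.induction_on_min_value (α := ℝ) Prod.fst (motive := fun S => ∀ lo : ℝ, lo < 1 →
    (∀ I ∈ S, lo < I.1 ∧ I.1 < I.2 ∧ I.2 < 1) →
    (∀ I ∈ S, ∀ J ∈ S, I ≠ J → I.2 < J.1 ∨ J.2 < I.1) → ∃ l, Ord lo l 1 ∧ ∀ I, I ∈ l ↔ I ∈ S) S
    (fun lo h _ _ => ⟨[], h, by simp⟩) ?_
  · intro a s ha hm ih lo _ h1 h2
    have k := h1 a (Finset.mem_insert_self _ _)
    obtain ⟨l, l1, l2⟩ := ih a.2 k.2.2 (fun I hI => by
      have k' := h1 I (Finset.mem_insert_of_mem hI)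
      refine ⟨?_, k'.2⟩
      rcases h2 a (Finset.mem_insert_self _ _) I (Finset.mem_insert_of_mem hI)
        (fun e => ha (e ▸ hI)) with h | h
      · exact h
      · linarith [hm I hI, k'.2.1])
      fun I hI J hJ => h2 I (Finset.mem_insert_of_mem hI) J (Finset.mem_insert_of_mem hJ)
    exact ⟨a :: l, ⟨k.1, k.2.1, l1⟩, fun I => by simp [l2]⟩

lemma gen_hit {U : Set unitInterval} (hU : IsOpen U) :
    MeasurableSet[MeasurableSpace.generateFrom
      (Av '' {A | ∀ I ∈ A, I.1 < I.2 ∧ 0 ≤ I.2 ∧ I.1 ≤ 1})]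
      {K : NonemptyCompacts unitInterval | ((K : Set unitInterval) ∩ U).Nonempty} := by
  have : {K : NonemptyCompacts unitInterval | ((K : Set unitInterval) ∩ U).Nonempty} =
      ⋃ p : {p : ℚ × ℚ // ((p.1 : ℝ) < p.2 ∧ (0 : ℝ) ≤ p.2 ∧ (p.1 : ℝ) ≤ 1) ∧
        ∀ x : unitInterval, (p.1 : ℝ) ≤ x → (x : ℝ) ≤ p.2 → x ∈ U},
        (Av {((p.1.1 : ℝ), (p.1.2 : ℝ))})ᶜ := by
    ext K
    simp only [Av, Finset.mem_singleton, forall_eq, mem_ofPred_eq, mem_iUnion, mem_compl_iff,
      not_not]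
    constructor
    · rintro ⟨x, xK, xU⟩
      obtain ⟨ε, ε0, hε⟩ := Metric.isOpen_iff.1 hU x xU
      obtain ⟨p, p1, p2⟩ := exists_rat_btwn (show (x : ℝ) - ε < x by linarith)
      obtain ⟨q, q1, q2⟩ := exists_rat_btwn (show (x : ℝ) < x + ε by linarith)
      refine ⟨⟨(p, q), ⟨p2.trans q1, x.2.1.trans q1.le, p2.le.trans x.2.2⟩, fun y y1 y2 => hε ?_⟩,
        x, xK, p2.le, q1.le⟩
      rw [Metric.mem_ball, Subtype.dist_eq, Real.dist_eq, abs_lt]
      constructor <;> linarith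
    · rintro ⟨p, x, xK, x1, x2⟩
      exact ⟨x, xK, p.2.2 x x1 x2⟩
  rw [this]
  refine MeasurableSet.iUnion fun p => MeasurableSet.compl
    (MeasurableSpace.measurableSet_generateFrom (mem_image_of_mem Av ?_))
  simpa using p.2.1

variable [MeasurableSpace (NonemptyCompacts unitInterval)]
  [BorelSpace (NonemptyCompacts unitInterval)]

lemma gen_eq : ‹MeasurableSpace (NonemptyCompacts unitInterval)› = MeasurableSpace.generateFrom
    (Av '' {A | ∀ I ∈ A, I.1 < I.2 ∧ 0 ≤ I.2 ∧ I.1 ≤ 1}) := by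
  refine le_antisymm ?_ (MeasurableSpace.generateFrom_le ?_)
  · rw [BorelSpace.measurable_eq (α := NonemptyCompacts unitInterval),
      borel_eq_generateFrom_of_subbasis (induced_generateFrom_eq (f := ((↑) :
        NonemptyCompacts unitInterval → Set unitInterval)))]
    refine MeasurableSpace.generateFrom_le ?_
    rintro _ ⟨_, ⟨U, hU, rfl⟩ | ⟨U, hU, rfl⟩, rfl⟩
    · have : ((↑) : NonemptyCompacts unitInterval → Set unitInterval) ⁻¹' U.powerset =
          (⋂ n : ℕ, {K : NonemptyCompacts unitInterval | ((K : Set unitInterval) ∩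
            Metric.thickening (1 / ((n : ℝ) + 1)) Uᶜ).Nonempty})ᶜ := by
        ext K
        simp only [mem_preimage, mem_powerset_iff, mem_compl_iff, mem_iInter, mem_ofPred_eq,
          not_forall]
        constructor
        · intro h
          obtain ⟨δ, δ0, hδ⟩ := (subset_compl_iff_disjoint_right.1 (h.trans (compl_compl U).ge)
            ).exists_thickenings K.isCompact (IsOpen.isClosed_compl hU)
          obtain ⟨n, hn⟩ := exists_nat_one_div_lt δ0
          refine ⟨n, ?_⟩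
          rintro ⟨x, x1, x2⟩
          exact disjoint_left.1 hδ (Metric.self_subset_thickening δ0 _ x1)
            (Metric.thickening_mono hn.le _ x2)
        · rintro ⟨n, hn⟩ x xK
          by_contra h
          exact hn ⟨x, xK, Metric.self_subset_thickening Nat.one_div_pos_of_nat _ h⟩
      rw [this]
      exact (MeasurableSet.iInter fun n => gen_hit Metric.isOpen_thickening).compl
    · exact gen_hit hU
  · rintro _ ⟨A, -, rfl⟩
    exact (av_open A).measurableSet

section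

variable {μ ν : Measure (NonemptyCompacts unitInterval)} [IsProbabilityMeasure μ]
  [IsProbabilityMeasure ν]
  (h : ∀ l, Ord 0 l 1 → μ {K | ∀ I ∈ l, K ∈ Hit I} = ν {K | ∀ I ∈ l, K ∈ Hit I})
include h

omit [IsProbabilityMeasure μ] in
lemma incl_excl (A : Finset (ℝ × ℝ)) : ∀ S : Finset (ℝ × ℝ), Disjoint S A →
    (∀ I, I ∈ S ∨ I ∈ A → 0 < I.1 ∧ I.1 < I.2 ∧ I.2 < 1) →
    (∀ I, I ∈ S ∨ I ∈ A → ∀ J, J ∈ S ∨ J ∈ A → I ≠ J → I.2 < J.1 ∨ J.2 < I.1) →
    μ ({K | ∀ I ∈ S, K ∈ Hit I} ∩ Av A) = ν ({K | ∀ I ∈ S, K ∈ Hit I} ∩ Av A) := by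
  classical
  induction A using Finset.induction_on with
  | empty =>
    intro S _ h1 h2
    obtain ⟨l, l1, l2⟩ := sort_ord S 0 one_pos (fun I hI => h1 I (Or.inl hI))
      fun I hI J hJ => h2 I (Or.inl hI) J (Or.inl hJ)
    have := h l l1
    simp only [l2] at this
    simpa [Av] using this
  | insert J A hJ ih =>
    intro S hd h1 h2
    rw [Finset.disjoint_insert_right] at hd
    have k1 := ih S hd.2 (fun I hI => h1 I (hI.imp_right Finset.mem_insert_of_mem))
      fun I hI I' hI' => h2 I (hI.imp_right Finset.mem_insert_of_mem) I'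
        (hI'.imp_right Finset.mem_insert_of_mem)
    have m : ∀ I, I ∈ insert J S ∨ I ∈ A → I ∈ S ∨ I ∈ insert J A := fun I hI => by
      simp only [Finset.mem_insert] at hI ⊢
      tauto
    have k2 := ih (insert J S) (Finset.disjoint_insert_left.2 ⟨hJ, hd.2⟩)
      (fun I hI => h1 I (m I hI)) fun I hI I' hI' => h2 I (m I hI) I' (m I' hI')
    have e1 : {K | ∀ I ∈ S, K ∈ Hit I} ∩ Av (insert J A) =
        ({K | ∀ I ∈ S, K ∈ Hit I} ∩ Av A) \ Hit J := by
      ext K
      simp only [Av, Finset.forall_mem_insert, mem_inter_iff, mem_ofPred_eq, mem_sdiff]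
      tauto
    have e2 : {K | ∀ I ∈ insert J S, K ∈ Hit I} ∩ Av A =
        ({K | ∀ I ∈ S, K ∈ Hit I} ∩ Av A) ∩ Hit J := by
      ext K
      simp only [Finset.forall_mem_insert, mem_inter_iff, mem_ofPred_eq]
      tauto
    rw [e2] at k2
    rw [← measure_sdiff_add_inter _ (hit_closed J).measurableSet,
      ← measure_sdiff_add_inter (μ := ν) _ (hit_closed J).measurableSet, k2,
      ENNReal.add_left_inj (measure_ne_top _ _)] at k1
    rw [e1, k1]

lemma av_eq : ∀ (n : ℕ) (A : Finset (ℝ × ℝ)), A.card ≤ n →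
    (∀ I ∈ A, 0 < I.1 ∧ I.1 < I.2 ∧ I.2 < 1) → μ (Av A) = ν (Av A) := by
  classical
  intro n
  induction n with
  | zero =>
    intro A hA _
    rw [Finset.card_eq_zero.1 (Nat.le_zero.1 hA)]
    simp [Av]
  | succ n ih =>
    intro A hA h1
    by_cases hd : ∀ I ∈ A, ∀ J ∈ A, I ≠ J → I.2 < J.1 ∨ J.2 < I.1
    · simpa using incl_excl h A ∅ (Finset.disjoint_empty_left _) (by simpa using h1)
        (by simpa using hd)
    · push Not at hd
      obtain ⟨I, hI, J, hJ, hne, k1, k2⟩ := hd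
      have hJ' : J ∈ A.erase I := Finset.mem_erase.2 ⟨hne.symm, hJ⟩
      have e : Av A = Av (insert (min I.1 J.1, max I.2 J.2) ((A.erase I).erase J)) := by
        ext K
        simp only [Av, Finset.forall_mem_insert, mem_ofPred_eq]
        constructor
        · refine fun hK => ⟨?_, fun L hL => hK L (Finset.mem_of_mem_erase
            (Finset.mem_of_mem_erase hL))⟩
          rintro ⟨x, xK, x1, x2⟩
          rw [min_le_iff] at x1
          rw [le_max_iff] at x2
          by_cases c1 : I.1 ≤ x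
          · by_cases c2 : (x : ℝ) ≤ I.2
            · exact hK I hI ⟨x, xK, c1, c2⟩
            · exact hK J hJ ⟨x, xK, by linarith [not_le.1 c2], x2.resolve_left c2⟩
          · exact hK J hJ ⟨x, xK, x1.resolve_left c1, by linarith [not_le.1 c1]⟩
        · rintro ⟨a1, a2⟩ L hL ⟨x, xK, x1, x2⟩
          by_cases c1 : L = I
          · subst c1
            exact a1 ⟨x, xK, (min_le_left _ _).trans x1, x2.trans (le_max_left _ _)⟩
          by_cases c2 : L = J
          · subst c2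
            exact a1 ⟨x, xK, (min_le_right _ _).trans x1, x2.trans (le_max_right _ _)⟩
          exact a2 L (Finset.mem_erase.2 ⟨c2, Finset.mem_erase.2 ⟨c1, hL⟩⟩) ⟨x, xK, x1, x2⟩
      rw [e]
      refine ih _ ((Finset.card_insert_le _ _).trans ?_) ?_
      · have := Finset.card_erase_add_one hI
        have := Finset.card_erase_add_one hJ'
        omega
      · rw [Finset.forall_mem_insert]
        exact ⟨⟨lt_min (h1 I hI).1 (h1 J hJ).1, (min_le_left _ _).trans_lt
          ((h1 I hI).2.1.trans_le (le_max_left _ _)), max_lt (h1 I hI).2.2 (h1 J hJ).2.2⟩,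
          fun L hL => h1 L (Finset.mem_of_mem_erase (Finset.mem_of_mem_erase hL))⟩

theorem law_unique (hμ : ∀ᵐ K ∂μ, 0 ∈ K ∧ 1 ∈ K) (hν : ∀ᵐ K ∂ν, 0 ∈ K ∧ 1 ∈ K) : μ = ν := by
  classical
  refine ext_of_generate_finite _ gen_eq ?_ ?_ (by simp)
  · rintro _ ⟨A, hA, rfl⟩ _ ⟨B, hB, rfl⟩ -
    refine ⟨A ∪ B, fun I hI => (Finset.mem_union.1 hI).elim (hA I) (hB I), ?_⟩
    ext K
    simp only [Av, Finset.mem_union, or_imp, forall_and, mem_inter_iff, mem_ofPred_eq]
  · rintro _ ⟨A, hA, rfl⟩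
    by_cases hc : ∀ I ∈ A, 0 < I.1 ∧ I.2 < 1
    · exact av_eq h _ A le_rfl fun I hI => ⟨(hc I hI).1, (hA I hI).1, (hc I hI).2⟩
    · have : Av A ⊆ {K | ¬(0 ∈ K ∧ 1 ∈ K)} := by
        rintro K hK ⟨k0, k1⟩
        refine hc fun I hI => ⟨?_, ?_⟩
        · exact not_le.1 fun c => hK I hI ⟨0, k0, c, (hA I hI).2.1⟩
        · exact not_le.1 fun c => hK I hI ⟨1, k1, (hA I hI).2.2, c⟩
      rw [measure_mono_null this (ae_iff.1 hμ), measure_mono_null this (ae_iff.1 hν)]

end

end Pool.Agent.Lib.MP_4960b8_pr.UN
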